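import Mathlib
import Pool.Agent.Q72.Sub.Defs
import Pool.Agent.Q72.Sub.Main

/-!
# A subdomain containing the core may have a smaller core
-/

set_option autoImplicit false

open Q72.Sub

namespace Pool.Agent.Results.MP_902c37_an.CoreOfSubdomain

/-- There are domains `ω ⊆ Ω ⊆ ℂ²` with `𝔠(Ω) ⊆ ω`, `𝔠(Ω) ≠ ∅` and `𝔠(ω) = ∅`. -/
theorem result : ∃ Ω ω : Set (ℂ × ℂ), IsOpen Ω ∧ IsConnected Ω ∧ IsOpen ω ∧ IsConnected ω ∧
    ω ⊆ Ω ∧ core Ω ⊆ ω ∧ (core Ω).Nonempty ∧ core ω = ∅ ∧ core ω ≠ core Ω := by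
  refine ⟨Om, om, isOpen_Om, isConnected_Om, isOpen_om, isConnected_om, fun p hp => hp.1,
    core_Om_subset, ⟨0, zero_mem_core⟩, core_om, fun h => ?_⟩
  have h0 := zero_mem_core
  rw [← h, core_om] at h0
  exact h0

end Pool.Agent.Results.MP_902c37_an.CoreOfSubdomain
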